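import Pool.Agent.Q152.QH.Pairs

/-!
# The variance of the primes in progressions, for the twists by almost all quadratic characters
-/

set_option autoImplicit false

namespace Pool.Agent.Results.MP_5dd4bb_nt.QuadraticTwists

open Finset Filter

/-- the sum of `g(p) log p (p / m)` over the primes `p ≡ a` modulo `q` with `u < p ≤ v`;
`(p / m)` is the Jacobi symbol -/
noncomputable def S (g : ℕ → ℂ) (m u v q a : ℕ) : ℂ :=
  ∑ p ∈ (Ioc u v).filter (fun p => p.Prime ∧ p ≡ a [MOD q]),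
    g p * (Real.log p : ℂ) * ((jacobiSym (p : ℤ) m : ℤ) : ℂ)

/-- the variance: the sum of `|S|²` over the reduced classes modulo `q` -/
noncomputable def G (g : ℕ → ℂ) (m u v q : ℕ) : ℝ :=
  ∑ a ∈ (range q).filter (fun a => a.Coprime q), ‖S g m u v q a‖ ^ 2

/-- the main term: the sum of `|g(p)|² log² p` over the primes `u < p ≤ v` that do not divide `q m` -/
noncomputable def D (g : ℕ → ℂ) (m u v q : ℕ) : ℝ :=
  ∑ p ∈ (Ioc u v).filter (fun p => p.Prime ∧ ¬ p ∣ q * m), ‖g p‖ ^ 2 * Real.log p ^ 2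

/-- the pairs of primes `p < p'` in `(u, v]` with `p ≡ p'` modulo `q` -/
def pairs (u v q : ℕ) : Finset (ℕ × ℕ) :=
  (Ioc u v ×ˢ Ioc u v).filter fun t => t.1.Prime ∧ t.2.Prime ∧ t.1 < t.2 ∧ t.1 ≡ t.2 [MOD q]

/-- the asymptotic formula with a power saving, up to `X` -/
def Power (g : ℕ → ℂ) (ε X : ℝ) (m : ℕ) : Prop :=
  ∀ q u v : ℕ, 1 ≤ q → u ≤ v → (v : ℝ) ≤ X →
    |G g m u v q - D g m u v q| ≤ X ^ ε * (((v : ℝ) - u) / √q)

/-- the asymptotic formula with powers of the logarithm, up to `X` -/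
def Sharp (g : ℕ → ℂ) (C X : ℝ) (m : ℕ) : Prop :=
  ∀ q u v : ℕ, 1 ≤ q → u ≤ v → (v : ℝ) ≤ X →
    |G g m u v q - D g m u v q| ≤
      C * (Real.log X * √(∑ t ∈ pairs u v q, Real.log t.1 ^ 2 * Real.log t.2 ^ 2)) ∧
    |G g m u v q - D g m u v q| ≤ C * (Real.log X ^ 3 * (((v : ℝ) - u) / √q))

open Pool.Agent.Q152.QH Pool.Agent.Q152.QT

/-- the coefficient of a pair -/
noncomputable def co (g : ℕ → ℂ) (t : ℕ × ℕ) : ℝ :=
  2 * ((g t.1 * (Real.log t.1 : ℂ)) * (starRingEnd ℂ) (g t.2 * (Real.log t.2 : ℂ))).re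

/-- the sum over the pairs -/
noncomputable def W (u v q : ℕ) : ℝ := ∑ t ∈ pairs u v q, Real.log t.1 ^ 2 * Real.log t.2 ^ 2

theorem W_nonneg (u v q : ℕ) : 0 ≤ W u v q := sum_nonneg fun _ _ => by positivity

lemma jac_norm_sq (p m : ℕ) (hp : p.Prime) (hm : m ≠ 0) :
    ‖((jacobiSym (p : ℤ) m : ℤ) : ℂ)‖ ^ 2 = if p ∣ m then 0 else 1 := by
  split_ifs with h
  · have h0 : jacobiSym (p : ℤ) m = 0 := by
      rw [jacobiSym.eq_zero_iff]
      refine ⟨hm, ?_⟩
      rw [Int.gcd_natCast_natCast, Nat.gcd_eq_left h]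
      exact hp.one_lt.ne'
    rw [h0]
    simp
  · have hc : Int.gcd (p : ℤ) m = 1 := by
      rw [Int.gcd_natCast_natCast]
      exact (Nat.Prime.coprime_iff_not_dvd hp).2 h
    rcases jacobiSym.eq_one_or_neg_one hc with h1 | h1 <;> rw [h1] <;> simp

/-- the variance minus the main term -/
theorem G_sub_D (g : ℕ → ℂ) (m u v q : ℕ) (hm : m ≠ 0) (hq : 1 ≤ q) :
    G g m u v q - D g m u v q =
      ∑ t ∈ pairs u v q, co g t * (jacobiSym ((t.1 * t.2 : ℕ) : ℤ) m : ℝ) := by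
  set f : ℕ → ℂ := fun p => g p * (Real.log p : ℂ) * ((jacobiSym (p : ℤ) m : ℤ) : ℂ) with hf
  set A : Finset ℕ := (Ioc u v).filter fun p => p.Prime ∧ ¬ p ∣ q with hA
  set κ : ℕ → ℕ → ℝ := fun x y => if x % q = y % q then 1 else 0 with hκ
  have hG : G g m u v q = ∑ x ∈ A, ∑ y ∈ A, κ x y * (f x * (starRingEnd ℂ) (f y)).re := by
    have h1 : ∀ a ∈ (range q).filter (fun a => a.Coprime q), ‖S g m u v q a‖ ^ 2 =
        ∑ x ∈ A, ∑ y ∈ A, (if x % q = a ∧ y % q = a then 1 else 0) * (f x * (starRingEnd ℂ) (f y)).re := by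
      intro a ha
      rw [mem_filter, mem_range] at ha
      have e1 : (Ioc u v).filter (fun p => p.Prime ∧ p ≡ a [MOD q]) = A.filter fun p => p % q = a := by
        rw [hA, filter_filter]
        refine filter_congr fun p _ => ?_
        unfold Nat.ModEq
        rw [Nat.mod_eq_of_lt ha.1]
        constructor
        · rintro ⟨h2, h3⟩
          refine ⟨⟨h2, fun hd => ?_⟩, h3⟩
          have h4 : Nat.gcd a q = Nat.gcd p q := by
            rw [← h3, ← Nat.gcd_rec, Nat.gcd_comm]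
          have h5 : Nat.gcd a q = 1 := ha.2
          rw [h4, Nat.gcd_eq_left hd] at h5
          exact h2.one_lt.ne' h5
        · rintro ⟨⟨h2, _⟩, h3⟩
          exact ⟨h2, h3⟩
      have e2 : S g m u v q a = ∑ x ∈ A.filter (fun p => p % q = a), f x := by
        unfold S
        rw [e1]
      rw [e2, ← Complex.normSq_eq_norm_sq, ← Complex.ofReal_re (Complex.normSq _), ← Complex.mul_conj, map_sum,
        sum_mul_sum, Complex.re_sum]
      rw [sum_filter]
      refine sum_congr rfl fun x _ => ?_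
      split_ifs with hx
      · rw [Complex.re_sum, sum_filter]
        refine sum_congr rfl fun y _ => ?_
        by_cases hy : y % q = a
        · rw [if_pos hy, if_pos ⟨hx, hy⟩, one_mul]
        · rw [if_neg hy, if_neg fun h => hy h.2, zero_mul]
      · symm
        refine sum_eq_zero fun y _ => ?_
        rw [if_neg fun h => hx h.1, zero_mul]
    unfold G
    rw [sum_congr rfl h1, sum_comm]
    refine sum_congr rfl fun x hx => ?_
    rw [sum_comm]
    refine sum_congr rfl fun y _ => ?_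
    rw [← sum_mul]
    congr 1
    rw [hA, mem_filter] at hx
    have hxR : x % q ∈ (range q).filter (fun a => a.Coprime q) := by
      rw [mem_filter, mem_range]
      refine ⟨Nat.mod_lt _ (by omega), ?_⟩
      unfold Nat.Coprime
      rw [← Nat.gcd_rec, Nat.gcd_comm]
      exact (Nat.Prime.coprime_iff_not_dvd hx.2.1).2 hx.2.2
    rw [hκ]
    simp only
    by_cases hxy : x % q = y % q
    · rw [if_pos hxy, sum_eq_single (x % q)]
      · rw [if_pos ⟨rfl, hxy.symm⟩]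
      · intro b _ hb
        rw [if_neg fun h => hb h.1.symm]
      · intro h
        exact absurd hxR h
    · rw [if_neg hxy]
      refine sum_eq_zero fun b _ => ?_
      rw [if_neg fun h => hxy (h.1.trans h.2.symm)]
  have hκs : ∀ x y, κ x y = κ y x := by
    intro x y
    rw [hκ]
    simp only
    by_cases h : x % q = y % q
    · rw [if_pos h, if_pos h.symm]
    · rw [if_neg h, if_neg fun h' => h h'.symm]
  have hD : D g m u v q = ∑ x ∈ A, κ x x * ‖f x‖ ^ 2 := by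
    unfold D
    have e1 : (Ioc u v).filter (fun p => p.Prime ∧ ¬ p ∣ q * m) = A.filter fun p => ¬ p ∣ m := by
      rw [hA, filter_filter]
      refine filter_congr fun p _ => ?_
      constructor
      · rintro ⟨h1, h2⟩
        exact ⟨⟨h1, fun h => h2 (Dvd.dvd.mul_right h m)⟩, fun h => h2 (Dvd.dvd.mul_left h q)⟩
      · rintro ⟨⟨h1, h2⟩, h3⟩
        refine ⟨h1, fun h => ?_⟩
        rcases (Nat.Prime.dvd_mul h1).1 h with h | h
        · exact h2 h
        · exact h3 h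
    rw [e1, sum_filter]
    refine sum_congr rfl fun x hx => ?_
    rw [hA, mem_filter] at hx
    have h2 : κ x x = 1 := if_pos rfl
    rw [h2, one_mul, hf]
    simp only
    rw [norm_mul, norm_mul, mul_pow, mul_pow, jac_norm_sq x m hx.2.1 hm, Complex.norm_real, Real.norm_eq_abs, sq_abs]
    split_ifs with h
    · ring
    · ring
  rw [hG, sym_split A κ hκs f, hD, add_sub_cancel_left]
  have hP : pairs u v q = ((A ×ˢ A).filter fun t => t.1 < t.2).filter fun t => t.1 % q = t.2 % q := by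
    unfold pairs
    rw [filter_filter]
    ext t
    rw [mem_filter, mem_filter, mem_product, mem_product, hA, mem_filter, mem_filter]
    unfold Nat.ModEq
    constructor
    · rintro ⟨⟨h1, h2⟩, h3, h4, h5, h6⟩
      refine ⟨⟨⟨h1, h3, fun hd => ?_⟩, ⟨h2, h4, fun hd => ?_⟩⟩, h5, h6⟩
      · have e1 : t.1 ≡ t.2 [MOD t.1] := Nat.ModEq.of_dvd hd h6
        have e2 : t.1 ∣ t.2 := (Nat.modEq_zero_iff_dvd).1 (e1.symm.trans (Nat.modEq_zero_iff_dvd.2 dvd_rfl))
        exact h5.ne ((Nat.prime_dvd_prime_iff_eq h3 h4).1 e2)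
      · have e1 : t.1 ≡ t.2 [MOD t.2] := Nat.ModEq.of_dvd hd h6
        have e2 : t.2 ∣ t.1 := (Nat.modEq_zero_iff_dvd).1 (e1.trans (Nat.modEq_zero_iff_dvd.2 dvd_rfl))
        exact h5.ne ((Nat.prime_dvd_prime_iff_eq h4 h3).1 e2).symm
    · rintro ⟨⟨⟨h1, h3, _⟩, ⟨h2, h4, _⟩⟩, h5, h6⟩
      exact ⟨⟨h1, h2⟩, h3, h4, h5, h6⟩
  rw [hP, sum_filter (fun t : ℕ × ℕ => t.1 % q = t.2 % q)]
  refine sum_congr rfl fun t _ => ?_
  rw [hκ]
  simp only
  split_ifs with h
  · unfold co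
    rw [hf]
    simp only
    have e1 : g t.1 * (Real.log t.1 : ℂ) * ((jacobiSym (t.1 : ℤ) m : ℤ) : ℂ) *
        (starRingEnd ℂ) (g t.2 * (Real.log t.2 : ℂ) * ((jacobiSym (t.2 : ℤ) m : ℤ) : ℂ)) =
        ((g t.1 * (Real.log t.1 : ℂ)) * (starRingEnd ℂ) (g t.2 * (Real.log t.2 : ℂ))) *
          ((jacobiSym ((t.1 * t.2 : ℕ) : ℤ) m : ℝ) : ℂ) := by
      rw [map_mul, map_intCast (starRingEnd ℂ), Nat.cast_mul, jacobiSym.mul_left]
      push_cast
      ring
    rw [e1, Complex.re_mul_ofReal]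
    ring
  · ring

theorem co_sq (g : ℕ → ℂ) (hg : ∀ n, ‖g n‖ ≤ 1) (t : ℕ × ℕ) :
    co g t ^ 2 ≤ 4 * (Real.log t.1 ^ 2 * Real.log t.2 ^ 2) := by
  have h1 : ∀ n : ℕ, ‖g n * (Real.log n : ℂ)‖ ≤ Real.log n := by
    intro n
    have h0 : 0 ≤ Real.log n := Real.log_natCast_nonneg n
    rw [norm_mul, Complex.norm_real, Real.norm_of_nonneg h0]
    exact mul_le_of_le_one_left h0 (hg n)
  have h2 : |co g t| ≤ 2 * (Real.log t.1 * Real.log t.2) := by
    unfold co
    rw [abs_mul, abs_two]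
    refine mul_le_mul_of_nonneg_left ((Complex.abs_re_le_norm _).trans ?_) two_pos.le
    rw [norm_mul, RCLike.norm_conj]
    exact mul_le_mul (h1 _) (h1 _) (norm_nonneg _) (Real.log_natCast_nonneg _)
  rw [← sq_abs]
  refine (pow_le_pow_left₀ (abs_nonneg _) h2 2).trans (le_of_eq ?_)
  ring

theorem card_pairs (u v q : ℕ) (hq : 1 ≤ q) : (pairs u v q).card * q ≤ (v - u) ^ 2 := by
  classical
  have h1 : (pairs u v q).card ≤ (Ioc u v ×ˢ Icc 1 ((v - u) / q)).card := by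
    refine card_le_card_of_injOn (fun t => (t.1, (t.2 - t.1) / q)) ?_ ?_
    · intro t ht
      have ht' : t ∈ pairs u v q := ht
      unfold pairs at ht'
      rw [mem_filter, mem_product, mem_Ioc, mem_Ioc] at ht'
      obtain ⟨⟨h1, h2⟩, _, _, h3, h4⟩ := ht'
      have h5 : q ∣ t.2 - t.1 := (Nat.modEq_iff_dvd' h3.le).1 h4
      have h6 : (t.1, (t.2 - t.1) / q) ∈ Ioc u v ×ˢ Icc 1 ((v - u) / q) := by
        rw [mem_product, mem_Ioc, mem_Icc]
        refine ⟨h1, ?_, Nat.div_le_div_right (by omega)⟩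
        rw [Nat.one_le_div_iff (by omega)]
        exact Nat.le_of_dvd (by omega) h5
      exact h6
    · intro t ht s hs hts
      have ht' : t ∈ pairs u v q := ht
      have hs' : s ∈ pairs u v q := hs
      unfold pairs at ht' hs'
      rw [mem_filter] at ht' hs'
      have h5 : q ∣ t.2 - t.1 := (Nat.modEq_iff_dvd' ht'.2.2.2.1.le).1 ht'.2.2.2.2
      have h6 : q ∣ s.2 - s.1 := (Nat.modEq_iff_dvd' hs'.2.2.2.1.le).1 hs'.2.2.2.2
      have h7 := ht'.2.2.2.1
      have h8 := hs'.2.2.2.1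
      simp only [Prod.mk.injEq] at hts
      obtain ⟨e1, e2⟩ := hts
      have e3 : t.2 - t.1 = s.2 - s.1 := by
        rw [← Nat.div_mul_cancel h5, ← Nat.div_mul_cancel h6, e2]
      ext <;> omega
  rw [card_product, Nat.card_Ioc, Nat.card_Icc, Nat.add_sub_cancel] at h1
  calc (pairs u v q).card * q ≤ (v - u) * ((v - u) / q) * q := Nat.mul_le_mul_right _ h1
    _ = (v - u) * ((v - u) / q * q) := by rw [mul_assoc]
    _ ≤ (v - u) * (v - u) := Nat.mul_le_mul_left _ (Nat.div_mul_le_self _ _)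
    _ = (v - u) ^ 2 := (sq _).symm

theorem W_le (X : ℝ) (u v q : ℕ) (hq : 1 ≤ q) (huv : u ≤ v) (hv : (v : ℝ) ≤ X) :
    W u v q ≤ (Real.log X ^ 2 * (((v : ℝ) - u) / √q)) ^ 2 := by
  have hq0 : (0 : ℝ) < q := by exact_mod_cast hq
  have h1 : W u v q ≤ (pairs u v q).card * Real.log X ^ 4 := by
    unfold W
    rw [← nsmul_eq_mul, ← sum_const]
    refine sum_le_sum fun t ht => ?_
    unfold pairs at ht
    rw [mem_filter, mem_product, mem_Ioc, mem_Ioc] at ht
    have h2 : ∀ p : ℕ, p.Prime → p ≤ v → Real.log p ^ 2 ≤ Real.log X ^ 2 := by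
      intro p hp hpv
      have hp0 : (0 : ℝ) < p := by exact_mod_cast hp.pos
      have h1 : (p : ℝ) ≤ X := le_trans (by exact_mod_cast hpv) hv
      exact pow_le_pow_left₀ (Real.log_natCast_nonneg p) (Real.log_le_log hp0 h1) 2
    calc Real.log t.1 ^ 2 * Real.log t.2 ^ 2 ≤ Real.log X ^ 2 * Real.log X ^ 2 :=
          mul_le_mul (h2 _ ht.2.1 ht.1.1.2) (h2 _ ht.2.2.1 ht.1.2.2) (by positivity) (by positivity)
      _ = Real.log X ^ 4 := by ring
  have h2 : ((pairs u v q).card : ℝ) ≤ ((v : ℝ) - u) ^ 2 / q := by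
    rw [le_div_iff₀ hq0]
    have h3 := card_pairs u v q hq
    have h4 : (((pairs u v q).card * q : ℕ) : ℝ) ≤ (((v - u) ^ 2 : ℕ) : ℝ) := Nat.cast_le.2 h3
    push_cast [Nat.cast_sub huv] at h4
    exact h4
  rw [mul_pow, div_pow, Real.sq_sqrt hq0.le]
  calc W u v q ≤ (pairs u v q).card * Real.log X ^ 4 := h1
    _ ≤ ((v : ℝ) - u) ^ 2 / q * Real.log X ^ 4 := mul_le_mul_of_nonneg_right h2 (by positivity)
    _ = (Real.log X ^ 2) ^ 2 * (((v : ℝ) - u) ^ 2 / q) := by ring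

/-- the event for one scale -/
def Good (g : {g : ℕ → ℂ // ∀ n, ‖g n‖ ≤ 1}) (E k N m : ℕ) : Prop :=
  m ≠ 0 → ∀ u v q : ℕ, v ≤ N → 1 ≤ q →
    (G g.1 m u v q - D g.1 m u v q) ^ 2 ≤ (N : ℝ) ^ ((E : ℝ) / k) * (64 * (k : ℝ) ^ 2 * W u v q)

theorem pairs_empty (u v q : ℕ) (h : v ≤ u ∨ v < q) : pairs u v q = ∅ := by
  unfold pairs
  rw [filter_eq_empty_iff]
  rintro t ht ⟨_, _, h3, h4⟩
  rw [mem_product, mem_Ioc, mem_Ioc] at ht
  rcases h with h | h
  · omega
  · have h5 : q ∣ t.2 - t.1 := (Nat.modEq_iff_dvd' h3.le).1 h4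
    have h6 := Nat.le_of_dvd (by omega) h5
    omega

open Classical in
theorem good_all (B : ℕ) : ∃ E N₀ : ℕ, ∀ (g : {g : ℕ → ℂ // ∀ n, ‖g n‖ ≤ 1}) (P N k : ℕ), N₀ ≤ N → 1 ≤ k →
    4 * N ^ (6 * k) ≤ P → (((om P).filter fun q => ¬ Good g E k N q).card : ℝ) ≤ P / (N : ℝ) ^ B := by
  obtain ⟨E, N₀, H⟩ := fam_pair 8 3 B
  refine ⟨E, max N₀ 1, fun g P N k hN hk hP => ?_⟩
  have hN1 : 1 ≤ N := (le_max_right _ _).trans hN
  set T : Finset (ℕ × ℕ × ℕ) := range (N + 1) ×ˢ range (N + 1) ×ˢ range (N + 1) with hT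
  have hTc : T.card ≤ 8 * N ^ 3 := by
    rw [hT, card_product, card_product, card_range]
    have : N + 1 ≤ 2 * N := by omega
    calc (N + 1) * ((N + 1) * (N + 1)) ≤ (2 * N) * ((2 * N) * (2 * N)) := by gcongr
      _ = 8 * N ^ 3 := by ring
  have h1 := H T (fun t => pairs t.1 t.2.1 t.2.2) (fun _ => co g.1) P N k ((le_max_left _ _).trans hN) hk hTc
    (by
      intro t ht x hx
      rw [hT, mem_product, mem_product, mem_range, mem_range, mem_range] at ht
      unfold pairs at hx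
      rw [mem_filter, mem_product, mem_Ioc, mem_Ioc] at hx
      exact ⟨hx.2.1, hx.2.2.1, hx.2.2.2.1, by omega⟩) hP
  refine le_trans (Nat.cast_le.2 (card_le_card fun m hm => ?_)) h1
  rw [mem_filter] at hm ⊢
  refine ⟨hm.1, fun hall => hm.2 ?_⟩
  intro hm0 u v q hv hq
  have hN0 : (0 : ℝ) ≤ (N : ℝ) ^ ((E : ℝ) / k) := by positivity
  rw [G_sub_D g.1 m u v q hm0 hq]
  by_cases hs : v ≤ u ∨ v < q
  · rw [pairs_empty u v q hs, sum_empty, zero_pow two_ne_zero]
    have := W_nonneg u v q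
    positivity
  · push Not at hs
    have ht : (u, v, q) ∈ T := by
      rw [hT, mem_product, mem_product, mem_range, mem_range, mem_range]
      simp only
      omega
    refine (hall _ ht).trans (mul_le_mul_of_nonneg_left ?_ hN0)
    have h2 : ∑ x ∈ pairs u v q, co g.1 x ^ 2 ≤ 4 * W u v q := by
      unfold W
      rw [mul_sum]
      exact sum_le_sum fun t _ => co_sq g.1 g.2 t
    calc 16 * (k : ℝ) ^ 2 * ∑ x ∈ pairs u v q, co g.1 x ^ 2 ≤ 16 * (k : ℝ) ^ 2 * (4 * W u v q) :=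
          mul_le_mul_of_nonneg_left h2 (by positivity)
      _ = 64 * (k : ℝ) ^ 2 * W u v q := by ring

open Classical in
/-- **Theorem.** -/
theorem result (B : ℕ) :
    (∀ ε : ℝ, 0 < ε → ∃ (A : ℕ) (Y₀ : ℝ), ∀ g : ℕ → ℂ, (∀ n, ‖g n‖ ≤ 1) → ∀ (P : ℕ) (Y : ℝ), Y₀ ≤ Y →
      ((((range (P + 1)).filter fun m => Odd m ∧ ¬ ∀ X : ℝ, Y ≤ X → X ^ A ≤ P → Power g ε X m).card : ℕ) : ℝ) ≤
        P / Y ^ B) ∧
    (∃ C Y₀ : ℝ, ∀ g : ℕ → ℂ, (∀ n, ‖g n‖ ≤ 1) → ∀ (P : ℕ) (Y : ℝ), Y₀ ≤ Y →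
      ((((range (P + 1)).filter fun m => Odd m ∧ ¬ ∀ X : ℝ, Y ≤ X → 7 * Real.log X ^ 2 ≤ Real.log P →
        Sharp g C X m).card : ℕ) : ℝ) ≤ P / Y ^ B) := by
  obtain ⟨E, H1, Y₂, hY₂, H2⟩ := two_uses 6 (by norm_num) Good good_all B
  refine ⟨fun ε hε => ?_, ?_⟩
  · obtain ⟨K, hK⟩ := exists_nat_ge (max 1 (E / ε))
    have hK1 : (1 : ℝ) ≤ K := (le_max_left _ _).trans hK
    have hK1' : 1 ≤ K := by exact_mod_cast hK1
    have hKE : (E : ℝ) / K ≤ ε := by
      have h1 : (E : ℝ) / ε ≤ K := (le_max_right _ _).trans hK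
      rw [div_le_iff₀ hε] at h1
      rw [div_le_iff₀ (by linarith)]
      linarith
    obtain ⟨X₁, hX₁⟩ : ∃ X₁ : ℝ, ∀ X : ℝ, X₁ ≤ X → 8 * K * Real.log X ^ 2 ≤ X ^ (ε / 2) := by
      have h1 := isLittleO_log_rpow_atTop (show 0 < ε / 4 by positivity)
      have h2 := h1.bound (show 0 < 1 / (8 * (K : ℝ)) by positivity)
      obtain ⟨X₁, hX₁⟩ := Filter.eventually_atTop.1 h2
      refine ⟨max X₁ 1, fun X hX => ?_⟩
      have h3 := hX₁ X ((le_max_left _ _).trans hX)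
      have hX1 : 1 ≤ X := (le_max_right _ _).trans hX
      have hX0 : 0 < X := by linarith
      rw [Real.norm_of_nonneg (Real.log_nonneg hX1), Real.norm_of_nonneg (by positivity), div_mul_eq_mul_div,
        one_mul, le_div_iff₀ (by positivity)] at h3
      have h4 : X ^ (ε / 4) * X ^ (ε / 4) = X ^ (ε / 2) := by
        rw [← Real.rpow_add hX0]
        congr 1
        ring
      rw [← h4]
      have h5 : 0 ≤ Real.log X := Real.log_nonneg hX1
      have h6 : Real.log X ≤ X ^ (ε / 4) := by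
        refine le_trans ?_ h3
        nlinarith
      calc 8 * K * Real.log X ^ 2 = (Real.log X * (8 * K)) * Real.log X := by ring
        _ ≤ X ^ (ε / 4) * X ^ (ε / 4) := mul_le_mul h3 h6 h5 (by positivity)
    obtain ⟨Y₁, H1⟩ := H1 K hK1'
    refine ⟨6 * K + 1, max Y₁ (max X₁ 1), fun g hg P Y hY => ?_⟩
    have a1 : Y₁ ≤ Y := (le_max_left _ _).trans hY
    have a2 : X₁ ≤ Y := (le_max_left _ _).trans ((le_max_right _ _).trans hY)
    have a3 : 1 ≤ Y := (le_max_right _ _).trans ((le_max_right _ _).trans hY)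
    refine le_trans (Nat.cast_le.2 (card_le_card fun m hm => ?_)) (H1 ⟨g, hg⟩ P Y a1)
    rw [mem_filter] at hm ⊢
    refine ⟨hm.1, hm.2.1, fun hall => hm.2.2 fun X hX hXP => ?_⟩
    intro q u v hq huv hv
    have hX1 : 1 ≤ X := a3.trans hX
    have hX0 : 0 < X := by linarith
    have h1 := hall X hX hXP (fun h => by rw [h] at hm; exact absurd hm.2.1 (by decide)) u v q (Nat.le_floor hv) hq
    have hN : (((⌊X⌋₊ : ℕ) : ℝ)) ^ ((E : ℝ) / K) ≤ X ^ ε :=
      (Real.rpow_le_rpow (Nat.cast_nonneg _) (Nat.floor_le hX0.le) (by positivity)).trans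
        (Real.rpow_le_rpow_of_exponent_le hX1 hKE)
    have hR0 : 0 ≤ ((v : ℝ) - u) / √q := by
      have : (u : ℝ) ≤ v := by exact_mod_cast huv
      exact div_nonneg (by linarith) (Real.sqrt_nonneg _)
    set R := ((v : ℝ) - u) / √q with hR
    have h2 : (G g m u v q - D g m u v q) ^ 2 ≤ (8 * K * Real.log X ^ 2 * X ^ (ε / 2) * R) ^ 2 := by
      have e1 : (X ^ (ε / 2)) ^ 2 = X ^ ε := by
        rw [← Real.rpow_natCast, ← Real.rpow_mul hX0.le]
        congr 1
        push_cast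
        ring
      calc (G g m u v q - D g m u v q) ^ 2 ≤
            (((⌊X⌋₊ : ℕ) : ℝ)) ^ ((E : ℝ) / K) * (64 * (K : ℝ) ^ 2 * W u v q) := h1
        _ ≤ X ^ ε * (64 * (K : ℝ) ^ 2 * (Real.log X ^ 2 * R) ^ 2) := by
            have h3 := W_le X u v q hq huv hv
            have h4 := W_nonneg u v q
            gcongr
        _ = (8 * K * Real.log X ^ 2 * X ^ (ε / 2) * R) ^ 2 := by
            rw [← e1]
            ring
    have h3 : |G g m u v q - D g m u v q| ≤ 8 * K * Real.log X ^ 2 * X ^ (ε / 2) * R :=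
      abs_le_of_sq_le_sq h2 (by positivity)
    refine h3.trans (mul_le_mul_of_nonneg_right ?_ hR0)
    calc 8 * K * Real.log X ^ 2 * X ^ (ε / 2) ≤ X ^ (ε / 2) * X ^ (ε / 2) :=
          mul_le_mul_of_nonneg_right (hX₁ X (a2.trans hX)) (by positivity)
      _ = X ^ ε := by rw [← Real.rpow_add hX0, add_halves]
  · refine ⟨8 * Real.exp E, Y₂, fun g hg P Y hY => ?_⟩
    refine le_trans (Nat.cast_le.2 (card_le_card fun m hm => ?_)) (H2 ⟨g, hg⟩ P Y hY)
    rw [mem_filter] at hm ⊢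
    refine ⟨hm.1, hm.2.1, fun hall => hm.2.2 fun X hX hXP => ?_⟩
    intro q u v hq huv hv
    have hX16 : 16 ≤ X := hY₂.trans (hY.trans hX)
    have hX0 : 0 < X := by linarith
    have hXP' : (((6 : ℕ) : ℝ) + 1) * Real.log X ^ 2 ≤ Real.log P := by
      refine le_trans (le_of_eq ?_) hXP
      norm_num
    have h1 := hall X hX hXP' (fun h => by rw [h] at hm; exact absurd hm.2.1 (by decide)) u v q (Nat.le_floor hv) hq
    have hN16 : 16 ≤ ⌊X⌋₊ := Nat.le_floor (by exact_mod_cast hX16)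
    obtain ⟨f1, f2, f3⟩ := pow_floor E ⌊X⌋₊ hN16
    have hN0 : (0 : ℝ) < (⌊X⌋₊ : ℕ) := by
      have : 0 < ⌊X⌋₊ := by omega
      exact_mod_cast this
    have hlX : Real.log (⌊X⌋₊ : ℕ) ≤ Real.log X := Real.log_le_log hN0 (Nat.floor_le hX0.le)
    have hlX0 : 0 ≤ Real.log X := Real.log_nonneg (by linarith)
    have hW := W_nonneg u v q
    have h2 : (G g m u v q - D g m u v q) ^ 2 ≤ (8 * Real.exp E * (Real.log X * √(W u v q))) ^ 2 := by
      calc (G g m u v q - D g m u v q) ^ 2 ≤ _ := h1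
        _ ≤ Real.exp E ^ 2 * (64 * Real.log X ^ 2 * W u v q) := by
            have e1 : ((⌊Real.log (⌊X⌋₊ : ℕ)⌋₊ : ℕ) : ℝ) ^ 2 ≤ Real.log X ^ 2 :=
              pow_le_pow_left₀ (Nat.cast_nonneg _) (f2.trans hlX) 2
            gcongr
        _ = (8 * Real.exp E * (Real.log X * √(W u v q))) ^ 2 := by
            rw [mul_pow, mul_pow (Real.log X), Real.sq_sqrt hW]
            ring
    have h3 : |G g m u v q - D g m u v q| ≤ 8 * Real.exp E * (Real.log X * √(W u v q)) :=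
      abs_le_of_sq_le_sq h2 (by positivity)
    refine ⟨h3, h3.trans (mul_le_mul_of_nonneg_left ?_ (by positivity))⟩
    have hR0 : 0 ≤ ((v : ℝ) - u) / √q := by
      have : (u : ℝ) ≤ v := by exact_mod_cast huv
      exact div_nonneg (by linarith) (Real.sqrt_nonneg _)
    have h4 : √(W u v q) ≤ Real.log X ^ 2 * (((v : ℝ) - u) / √q) :=
      (Real.sqrt_le_left (by positivity)).2 (W_le X u v q hq huv hv)
    calc Real.log X * √(W u v q) ≤ Real.log X * (Real.log X ^ 2 * (((v : ℝ) - u) / √q)) :=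
          mul_le_mul_of_nonneg_left h4 hlX0
      _ = Real.log X ^ 3 * (((v : ℝ) - u) / √q) := by ring

end Pool.Agent.Results.MP_5dd4bb_nt.QuadraticTwists
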