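import Mathlib
import Pool.Agent.Q84.MB.F4
import Pool.Agent.H426AM.Final
import Pool.Agent.Q84.NX.Mul

/-!
# The variance of primes in progressions to the multiples of the primes of a string

Let `ε > 0`. There is `δ > 0`, and for all `κ > 0` and `m` there are `c > 0` and, for every `Z`, a number `C` with the
following property. For every large `X` there is a set `S` of at most `(log X) ^ (49 / 50)` primes, all larger than `Z`,
such that for EVERY function `f` with values `1` and `-1` on the primes at least `X ^ (1 - κ)` integers `n`,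
`X < n ≤ 3X`, satisfy: the interval `[n, n + C]` contains at least `m` primes, and for every prime `p` in it

* the Legendre symbol `(p / q)` is `f q` for all odd primes `q ≤ c log X` outside `S`;
* ALL moduli `k ≤ p ^ (1 + δ)` divisible by `p` satisfy `G(x, k) ≥ x (log k - (1 / 2 + ε) log x)` for ALL real `x ≥ k`.

Method: by the starting module `H426AM` (result `AlmostAllModuli`) there are at most `K ^ (1 - κ')` exceptional moduli up
to `K`, so few primes divide an exceptional modulus of the given size; the Maynard-Tao theorem relative to a modulus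
which is a small power of `X`, in the form that it avoids arbitrary exceptional sets of size `X ^ (1 - η)`
(`Q84/MB/E1-E4`), gives the strings.
-/

set_option autoImplicit false

open scoped Classical

namespace Pool.Agent.Results.MP_5dd4bb_nt.StringsOfModuli

open Finset Filter

/-- `ψ(X; k, A)`, the sum of `Λ(n)` over the `1 ≤ n ≤ X` with `n ≡ A (mod k)` -/
noncomputable def psi (X : ℝ) (k A : ℕ) : ℝ :=
  ∑ n ∈ (Icc 1 ⌊X⌋₊).filter (fun n => n ≡ A [MOD k]), ArithmeticFunction.vonMangoldt n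

/-- `G(X, k)`, the sum of `(ψ(X; k, A) - X / φ(k))²` over the reduced residues `A` modulo `k` -/
noncomputable def G (X : ℝ) (k : ℕ) : ℝ :=
  ∑ A ∈ (range k).filter (fun A => A.Coprime k), (psi X k A - X / Nat.totient k) ^ 2

/-- the lower bound `G(X, k) ≥ X (log k - (1 / 2 + ε) log X)` for all real `X ≥ k` -/
def Lower (ε : ℝ) (k : ℕ) : Prop :=
  ∀ X : ℝ, (k : ℝ) ≤ X → X * (Real.log k - (1 / 2 + ε) * Real.log X) ≤ G X k

/-- the lower bound fails for the modulus `k ≥ 1` -/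
def Fails (ε : ℝ) (k : ℕ) : Prop := 1 ≤ k ∧ ¬ Lower ε k

/-- the lower bound holds for all moduli `k ≤ p ^ (1 + δ)` which are divisible by `p` -/
def Good (ε δ : ℝ) (p : ℕ) : Prop :=
  ∀ k : ℕ, 1 ≤ k → p ∣ k → (k : ℝ) ≤ (p : ℝ) ^ (1 + δ) → Lower ε k

theorem bad_count (ε : ℝ) (hε : 0 < ε) : ∃ C δ : ℝ, 0 < δ ∧ δ ≤ 1 / 2 ∧ ∀ Y : ℕ, 1 ≤ Y →
    Pool.Agent.Q138.PS.cn (Fails ε) Y ≤ C * (Y : ℝ) ^ (1 - δ) := by
  obtain ⟨κ, K₀, hκ, h⟩ := H426AM.main ε hε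
  obtain ⟨C, δ, -, hδ, hδ2, -, h2⟩ := Pool.Agent.Q84.NX.dyadic (Fails ε) κ K₀ hκ (by
    intro K hK
    refine le_trans ?_ (h K hK)
    rw [Nat.cast_le]
    apply card_le_card
    intro k hk
    rw [mem_filter] at hk ⊢
    refine ⟨hk.1, ?_⟩
    have h1 := hk.2.2
    unfold Lower at h1
    push Not at h1
    obtain ⟨X, hX, hlt⟩ := h1
    refine ⟨X, hX, ?_⟩
    unfold G psi at hlt
    refine lt_of_lt_of_le hlt (le_of_eq ?_)
    ring)
  exact ⟨C, δ, hδ, hδ2, h2⟩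

theorem result (ε : ℝ) (hε : 0 < ε) : ∃ δ : ℝ, 0 < δ ∧ ∀ κ : ℝ, 0 < κ → ∀ m : ℕ, ∃ c : ℝ, 0 < c ∧
    ∀ Z : ℕ, ∃ C : ℕ, ∃ X₀ : ℝ, ∀ X : ℝ, X₀ ≤ X →
    ∃ S : Finset ℕ, (∀ q ∈ S, q.Prime ∧ Z < q) ∧ (S.card : ℝ) ≤ (Real.log X) ^ (49 / 50 : ℝ) ∧
    ∀ f : ℕ → ℤ, (∀ q, f q = 1 ∨ f q = -1) →
      X ^ (1 - κ) ≤ (((Icc 1 ⌊3 * X⌋₊).filter fun n : ℕ => X < n ∧
        m ≤ ((Icc n (n + C)).filter Nat.Prime).card ∧
        ∀ p ∈ Icc n (n + C), p.Prime → Good ε δ p ∧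
          ∀ q : ℕ, q.Prime → q ≠ 2 → (q : ℝ) ≤ c * Real.log X → q ∉ S → jacobiSym p q = f q).card : ℝ) := by
  obtain ⟨C₁, δ₀, hδ₀, hδ₀2, hC₁⟩ := bad_count ε hε
  refine ⟨δ₀, hδ₀, fun κ hκ m => ?_⟩
  set η : ℝ := min κ (δ₀ ^ 2 / 2) with hη
  have hη0 : 0 < η := by positivity
  have hη1 : η ≤ κ := min_le_left _ _
  have hη2 : η ≤ δ₀ ^ 2 / 2 := min_le_right _ _
  have hb := Pool.Agent.Q84.NX.mult_bad (Fails ε) C₁ δ₀ δ₀ η hδ₀ (by linarith) (by linarith)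
    (by nlinarith) (fun k hk => hk.1) hC₁
  obtain ⟨c, hc, hmain⟩ := Pool.Agent.Q84.MB.sym_strings m η hη0
  refine ⟨c, hc, fun Z => ?_⟩
  obtain ⟨C, hC⟩ := hmain Z
  obtain ⟨X₀, hX₀⟩ := eventually_atTop.1 ((hC.and hb).and (eventually_ge_atTop (1 : ℝ)))
  refine ⟨C, X₀, fun X hX => ?_⟩
  obtain ⟨⟨⟨S, hS1, hS2, hS3⟩, hbad⟩, hX1⟩ := hX₀ X hX
  refine ⟨S, hS1, hS2, fun f hf => ?_⟩
  have hP : (((Icc 1 ⌊4 * X⌋₊).filter fun p : ℕ => p.Prime ∧ X < p ∧ ¬ Good ε δ₀ p).card : ℝ) ≤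
      X ^ (1 - η) := by
    refine le_trans ?_ hbad
    rw [Nat.cast_le]
    apply card_le_card
    intro p hp
    rw [mem_filter] at hp ⊢
    obtain ⟨h1, h2, h3, h4⟩ := hp
    unfold Good at h4
    push Not at h4
    obtain ⟨k, hk1, hk2, hk3, hk4⟩ := h4
    exact ⟨h1, h2, h3, k, ⟨hk1, hk4⟩, hk2, hk3⟩
  have h1 := hS3 f hf (Good ε δ₀) hP
  have h2 : X ^ (1 - κ) ≤ X ^ (1 - η) := Real.rpow_le_rpow_of_exponent_le hX1 (by linarith)
  refine h2.trans (h1.trans ?_)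
  rw [Nat.cast_le]
  apply card_le_card
  intro n hn
  rw [mem_filter] at hn ⊢
  obtain ⟨h3, h4, h5⟩ := hn
  exact ⟨h3, h4, h5.1, h5.2⟩

end Pool.Agent.Results.MP_5dd4bb_nt.StringsOfModuli
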