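import Pool.Agent.H426AM.Final
import Pool.Agent.Q138.PS.VB
import Pool.Agent.Q84.NX.Dy

/-!
# The variance of primes in progressions: whole windows of moduli around `⌊α P(n)⌋`

Let `q ≥ 2`. Outside a set of real numbers of Hausdorff dimension at most `q / (q + 1 / (q 2 ^ (q - 1)))` (that is `8 / 9`
for `q = 2`) every `α > 0` has the following property for all `ε > 0`, for ALL integral polynomials `P` of degree `q` with
positive leading coefficient and coefficients of size at most `N ^ η`. For all but `N ^ (1 - κ)` of the `n ≤ N`, ALL moduli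
`k ≥ 1` with `|k - ⌊α P(n)⌋| ≤ N ^ κ` satisfy `G(X, k) ≥ X (log k - (1 / 2 + ε) log X)` for ALL real `X ≥ k`.

The starting module `H426AM` (result `AlmostAllModuli`) shows that the number of exceptional moduli up to `K` is at most
`K ^ (1 - κ)`, which says nothing on a sequence like `⌊α n²⌋`, and nothing on whole windows around its members. The
transfer (module `Q138.PS.VB`, by helper138) is used as a black box.
-/

set_option autoImplicit false

namespace Pool.Agent.Results.MP_5dd4bb_nt.WindowsAlongRealMultiples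

open Finset Filter Topology

/-- `ψ(X; k, A)`, the sum of `Λ(n)` over the `1 ≤ n ≤ X` with `n ≡ A (mod k)` -/
noncomputable def psi (X : ℝ) (k A : ℕ) : ℝ :=
  ∑ n ∈ (Icc 1 ⌊X⌋₊).filter (fun n => n ≡ A [MOD k]), ArithmeticFunction.vonMangoldt n

/-- `G(X, k)`, the sum of `(ψ(X; k, A) - X / φ(k))²` over the reduced residues `A` modulo `k` -/
noncomputable def G (X : ℝ) (k : ℕ) : ℝ :=
  ∑ A ∈ (range k).filter (fun A => A.Coprime k), (psi X k A - X / Nat.totient k) ^ 2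

/-- the lower bound `G(X, k) ≥ X (log k - (1 / 2 + ε) log X)` for all real `X ≥ k` -/
def Lower (ε : ℝ) (k : ℕ) : Prop :=
  ∀ X : ℝ, (k : ℝ) ≤ X → X * (Real.log k - (1 / 2 + ε) * Real.log X) ≤ G X k

/-- the lower bound fails for the modulus `k ≥ 1` -/
def Fails (ε : ℝ) (k : ℕ) : Prop := 1 ≤ k ∧ ¬ Lower ε k

open Classical in
/-- the number of the `1 ≤ n ≤ N` such that the lower bound fails for some modulus `k ≥ 1` with
`|k - ⌊α P(n)⌋| ≤ W` (here `⌊y⌋ = 0` for `y < 0`) -/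
noncomputable def count (ε : ℝ) (W : ℕ) (α : ℝ) (P : Polynomial ℤ) (N : ℕ) : ℕ :=
  ((Icc 1 N).filter fun n : ℕ => ∃ k : ℕ, Fails ε k ∧
    |(k : ℤ) - (⌊α * ((P.eval (n : ℤ) : ℤ) : ℝ)⌋₊ : ℤ)| ≤ W).card

theorem lower_mono {ε ε' : ℝ} (h : ε' ≤ ε) {k : ℕ} (hk : 1 ≤ k) (hl : Lower ε' k) : Lower ε k := by
  intro X hX
  refine le_trans ?_ (hl X hX)
  have hX1 : (1 : ℝ) ≤ X := le_trans (by exact_mod_cast hk) hX
  have hlog : 0 ≤ Real.log X := Real.log_nonneg hX1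
  nlinarith [mul_nonneg (sub_nonneg.2 h) hlog]

open Classical in
theorem bad_count (ε : ℝ) (hε : 0 < ε) : ∃ C δ : ℝ, 0 < δ ∧ ∀ Y : ℕ, 1 ≤ Y →
    Pool.Agent.Q138.PS.cn (Fails ε) Y ≤ C * (Y : ℝ) ^ (1 - δ) := by
  obtain ⟨κ, K₀, hκ, h⟩ := H426AM.main ε hε
  obtain ⟨C, δ, -, hδ, -, -, h2⟩ := Pool.Agent.Q84.NX.dyadic (Fails ε) κ K₀ hκ (by
    intro K hK
    refine le_trans ?_ (h K hK)
    rw [Nat.cast_le]
    apply card_le_card
    intro k hk
    rw [mem_filter] at hk ⊢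
    refine ⟨hk.1, ?_⟩
    have h1 := hk.2.2
    unfold Lower at h1
    push Not at h1
    obtain ⟨X, hX, hlt⟩ := h1
    refine ⟨X, hX, ?_⟩
    unfold G psi at hlt
    refine lt_of_lt_of_le hlt (le_of_eq ?_)
    ring)
  exact ⟨C, δ, hδ, h2⟩

/-- **Theorem.** Let `q ≥ 2`. There is a set `E` of Hausdorff dimension at most `q / (q + 1 / (q 2 ^ (q - 1)))` such that
for each `α > 0` outside `E` there is `η > 0` such that for every `ε > 0` there is `κ > 0` with: for all large `N` and all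
integral polynomials `P` of degree `q` with positive leading coefficient and coefficients of size at most `N ^ η`, for all
but `N ^ (1 - κ)` of the `n ≤ N`, all moduli `k ≥ 1` with `|k - ⌊α P(n)⌋| ≤ N ^ κ` satisfy
`G(X, k) ≥ X (log k - (1 / 2 + ε) log X)` for all real `X ≥ k`. -/
theorem result (q : ℕ) (hq : 2 ≤ q) :
    ∃ E : Set ℝ, dimH E ≤ ENNReal.ofReal ((q : ℝ) / (q + 1 / ((q : ℝ) * 2 ^ (q - 1)))) ∧ ∀ α : ℝ, 0 < α → α ∉ E →
      ∃ η : ℝ, 0 < η ∧ ∀ ε : ℝ, 0 < ε → ∃ κ : ℝ, 0 < κ ∧ ∀ᶠ N : ℕ in atTop,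
      ∀ P : Polynomial ℤ, P.natDegree = q → 0 < P.leadingCoeff → (∀ j, |((P.coeff j : ℤ) : ℝ)| ≤ (N : ℝ) ^ η) →
      (count ε ⌊(N : ℝ) ^ κ⌋₊ α P N : ℝ) ≤ (N : ℝ) ^ (1 - κ) := by
  classical
  obtain ⟨E, hE, h⟩ := Pool.Agent.Q138.PS.exc_bad q hq
    (fun (j : ℕ) => Fails (1 / ((j : ℝ) + 1)))
  refine ⟨E, hE, fun α hα hαE => ?_⟩
  obtain ⟨η, hη, h1⟩ := h α hα hαE
  refine ⟨η, hη, fun ε hε => ?_⟩
  obtain ⟨j, hj⟩ := exists_nat_one_div_lt hε
  obtain ⟨C, δ, hδ, hC⟩ := bad_count (1 / ((j : ℝ) + 1)) (by positivity)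
  obtain ⟨κ, hκ, h2⟩ := h1 j C δ hδ hC
  refine ⟨κ, hκ, ?_⟩
  filter_upwards [h2] with N hN
  intro P hdeg hlead hco
  refine le_trans ?_ (hN P hdeg hlead hco)
  rw [Nat.cast_le]
  unfold count Pool.Agent.Q138.PS.badW
  apply card_le_card
  intro n hn
  rw [mem_filter] at hn ⊢
  obtain ⟨h3, k, ⟨hk1, hk3⟩, hk2⟩ := hn
  exact ⟨h3, k, ⟨hk1, fun hl => hk3 (lower_mono hj.le hk1 hl)⟩, hk2⟩

end Pool.Agent.Results.MP_5dd4bb_nt.WindowsAlongRealMultiples
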